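import Pool.Agent.K7.H74.AG.Stm
import Pool.Agent.K7.H41.AF.PAIR

set_option autoImplicit false

/-!
# Project AG, job PAIR: the mean number of pairs
-/

open MeasureTheory Set

namespace Pool.Agent.K7.H66.AGPAIR

open Pool.Agent.K7.H74.AF (lo blk Box mx)
open Pool.Agent.K7.H74.AG Pool.Agent.K7.H74.WD
open Pool.Agent.K7.H41.AF (harm pair_sum)

/-- the difference of two powers -/
theorem pow_diff (n : ℕ) {x d P : ℝ} (hP : 0 ≤ P) (hx : P ≤ x) (hd : 0 ≤ d) :
    d * P ^ (n + 1) ≤ (x + d) ^ (n + 2) - x ^ (n + 2) := by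
  have hx0 : 0 ≤ x := hP.trans hx
  have h1 : P ^ (n + 1) ≤ x ^ (n + 1) := pow_le_pow_left₀ hP hx _
  have h2 : x ^ (n + 1) ≤ (x + d) ^ (n + 1) := pow_le_pow_left₀ hx0 (by linarith) _
  have h3 : (x + d) ^ (n + 2) = (x + d) * (x + d) ^ (n + 1) := by ring
  have h4 : x ^ (n + 2) = x * x ^ (n + 1) := by ring
  rw [h3, h4]
  have h5 : (x + d) * x ^ (n + 1) ≤ (x + d) * (x + d) ^ (n + 1) :=
    mul_le_mul_of_nonneg_left h2 (by linarith)
  have h6 : d * P ^ (n + 1) ≤ d * x ^ (n + 1) := mul_le_mul_of_nonneg_left h1 hd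
  nlinarith

theorem t : StPair := by
  intro k m hk hm
  obtain ⟨n, rfl⟩ : ∃ n, k = n + 2 := ⟨k - 2, by omega⟩
  refine ⟨8 * 3 ^ n, by positivity, fun J B hB => ?_⟩
  rcases Nat.eq_zero_or_pos J with rfl | hJ
  · have h1 : ∀ β, pairs (n + 2) 0 B β = 0 := by
      intro β
      unfold pairs
      apply Finset.sum_eq_zero
      intro x hx
      apply Finset.sum_eq_zero
      intro y hy
      rw [Finset.mem_erase] at hy
      simp only [blk, lo, if_true, pow_zero, Finset.mem_Ico] at hx hy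
      omega
    simp only [h1, lintegral_zero]
    exact zero_le
  obtain ⟨j, rfl⟩ : ∃ j, J = j + 1 := ⟨J - 1, by omega⟩
  set P : ℕ := 3 ^ j with hP
  have hP1 : 1 ≤ P := Nat.one_le_pow _ _ (by norm_num)
  have hP0 : (1 : ℝ) ≤ P := by exact_mod_cast hP1
  have hlo : lo (j + 1) = P := by
    simp [lo, hP]
  have h3P : 3 ^ (j + 1) = P + 2 * P := by
    rw [pow_succ]
    omega
  have hb : blk (j + 1) = Finset.Ico P (P + 2 * P) := by
    unfold blk
    rw [hlo, h3P]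
  -- the pairs
  have h1 : ∀ β, pairs (n + 2) (j + 1) B β ≤ 2 * ∑ d ∈ Finset.Ico (1:ℕ) (3 ^ (j + 1)), ∑ x ∈ blk (j + 1),
      ov B (β * (((x : ℝ) + d) ^ (n + 2) - (x : ℝ) ^ (n + 2))) := by
    intro β
    unfold pairs
    have h2 := pair_sum (S := blk (j + 1)) (N := 3 ^ (j + 1)) (fun y hy => (Finset.mem_Ico.1 hy).2)
      (fun x y => volume {τ : ℝ | τ - β * (x : ℝ) ^ (n + 2) ∈ B ∧ τ - β * (y : ℝ) ^ (n + 2) ∈ B})
      (fun x y => by
        congr 1
        ext t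
        exact and_comm)
    refine h2.trans (le_of_eq ?_)
    congr 1
    apply Finset.sum_congr rfl
    intro d _
    apply Finset.sum_congr rfl
    intro x _
    rw [ov_shift]
    congr 1
    push_cast
    ring
  have hone : ∀ d ∈ Finset.Ico (1:ℕ) (3 ^ (j + 1)), ∀ x ∈ blk (j + 1),
      ∫⁻ β, ov B (β * (((x : ℝ) + d) ^ (n + 2) - (x : ℝ) ^ (n + 2))) ∂(seg m) ≤
      ENNReal.ofReal (1 / d * (1 / (P:ℝ) ^ (n + 1))) * (volume B) ^ 2 := by
    intro d hd x hx
    rw [Finset.mem_Ico] at hd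
    rw [hb, Finset.mem_Ico] at hx
    have hd1 : (1:ℝ) ≤ d := by exact_mod_cast hd.1
    have hxP : (P : ℝ) ≤ x := by exact_mod_cast hx.1
    set D : ℝ := ((x : ℝ) + d) ^ (n + 2) - (x : ℝ) ^ (n + 2) with hD
    have hDP : (d : ℝ) * (P : ℝ) ^ (n + 1) ≤ D := pow_diff n (by linarith) hxP (by linarith)
    have hder : ∀ v : ℝ, HasDerivAt (fun v : ℝ => v * D) D v := by
      intro v
      simpa using (hasDerivAt_id v).mul_const D
    have h3 := ov_avg hB hder (a := 1 / (m : ℝ)) (b := m) (g := (d:ℝ) * (P:ℝ) ^ (n + 1))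
      (by positivity) (fun v _ => hDP)
    unfold seg
    refine h3.trans (le_of_eq ?_)
    rw [sq, one_div_mul_one_div]
  have hmeas1 : ∀ (d x : ℕ), Measurable fun β : ℝ =>
      ov B (β * (((x : ℝ) + d) ^ (n + 2) - (x : ℝ) ^ (n + 2))) :=
    fun d x => (ov_meas hB).comp (by fun_prop)
  have hmeas : ∀ d : ℕ, Measurable fun β : ℝ => ∑ x ∈ blk (j + 1),
      ov B (β * (((x : ℝ) + d) ^ (n + 2) - (x : ℝ) ^ (n + 2))) :=
    fun d => Finset.measurable_sum _ fun y _ => hmeas1 d y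
  calc ∫⁻ β, pairs (n + 2) (j + 1) B β ∂(seg m)
      ≤ ∫⁻ β, 2 * ∑ d ∈ Finset.Ico (1:ℕ) (3 ^ (j + 1)), ∑ x ∈ blk (j + 1),
        ov B (β * (((x : ℝ) + d) ^ (n + 2) - (x : ℝ) ^ (n + 2))) ∂(seg m) := lintegral_mono h1
    _ = 2 * ∑ d ∈ Finset.Ico (1:ℕ) (3 ^ (j + 1)), ∑ x ∈ blk (j + 1), ∫⁻ β,
        ov B (β * (((x : ℝ) + d) ^ (n + 2) - (x : ℝ) ^ (n + 2))) ∂(seg m) := by
        rw [lintegral_const_mul _ (Finset.measurable_sum _ fun d _ => hmeas d),
          lintegral_finsetSum _ fun d _ => hmeas d]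
        congr 1
        refine Finset.sum_congr rfl fun d _ => ?_
        rw [lintegral_finsetSum _ fun x _ => hmeas1 d x]
    _ ≤ 2 * ∑ d ∈ Finset.Ico (1:ℕ) (3 ^ (j + 1)), ∑ x ∈ blk (j + 1),
        ENNReal.ofReal (1 / d * (1 / (P:ℝ) ^ (n + 1))) * (volume B) ^ 2 := by
        gcongr with d hd x hx
        exact hone d hd x hx
    _ = ENNReal.ofReal (2 * ∑ d ∈ Finset.Ico (1:ℕ) (3 ^ (j + 1)), (2 * P * (1 / d * (1 / (P:ℝ) ^ (n + 1))))) *
        (volume B) ^ 2 := by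
        rw [ENNReal.ofReal_mul (by norm_num), ENNReal.ofReal_sum_of_nonneg
          (fun d _ => by positivity)]
        rw [mul_assoc, Finset.sum_mul]
        congr 1
        · simp
        · refine Finset.sum_congr rfl fun d _ => ?_
          rw [Finset.sum_const, nsmul_eq_mul, hb, Nat.card_Ico, Nat.add_sub_cancel_left, ← mul_assoc,
            ← ENNReal.ofReal_natCast, ← ENNReal.ofReal_mul (by positivity)]
          congr 2
          push_cast
          ring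
    _ ≤ _ := by
        gcongr
        rw [← Finset.mul_sum, ← Finset.sum_mul]
        have h2 := harm (j + 1)
        have hPpos : (0 : ℝ) < P := by linarith
        have h4 : ((3:ℝ) ^ (j + 1)) ^ 2 / ((3:ℝ) ^ (j + 1)) ^ (n + 2) = 1 / ((P:ℝ) ^ n * 3 ^ n) := by
          have h5 : (3:ℝ) ^ (j + 1) = P * 3 := by
            rw [pow_succ, hP]
            push_cast
            ring
          rw [h5, pow_add, ← mul_pow]
          have : (0:ℝ) < P * 3 := by positivity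
          field_simp
        have h6 : 8 * 3 ^ n * (1 + ((j + 1 : ℕ) : ℝ)) * ((3:ℝ) ^ (j + 1)) ^ 2 / ((3:ℝ) ^ (j + 1)) ^ (n + 2) =
            8 * (1 + ((j + 1 : ℕ) : ℝ)) * (1 / (P:ℝ) ^ n) := by
          rw [mul_div_assoc, h4]
          field_simp
        rw [h6]
        have h7 : 2 * (2 * (P : ℝ) * ((∑ i ∈ Finset.Ico (1:ℕ) (3 ^ (j + 1)), 1 / (i : ℝ)) * (1 / (P:ℝ) ^ (n + 1)))) =
            4 * (∑ i ∈ Finset.Ico (1:ℕ) (3 ^ (j + 1)), 1 / (i : ℝ)) * (1 / (P:ℝ) ^ n) := by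
          rw [pow_succ]
          field_simp
          ring
        rw [h7]
        apply mul_le_mul_of_nonneg_right _ (by positivity)
        push_cast at h2 ⊢
        linarith

end Pool.Agent.K7.H66.AGPAIR
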